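import Pool.Agent.T2H96.Gamma.Final

/-!
# `MP_cc0654_lc`, question Q1: yes

Under the continuum hypothesis there is a subgroup `G` of `ℤ^ℕ` of cardinality continuum that
satisfies `S₁(𝓑_Ω, 𝓑_Γ)`.
-/

open Set Topology Filter Cardinal

namespace Pool.Agent.Results.MP_cc0654_lc.BorelGammaGroup

/-- `𝓤` is an `ω`-cover of `X`: it covers `X`, the set `X` is not a member, and every finite
subset of `X` is contained in a member. -/
def IsOmegaCover {X : Type} (𝓤 : Set (Set X)) : Prop :=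
  ⋃₀ 𝓤 = Set.univ ∧ Set.univ ∉ 𝓤 ∧ ∀ F : Set X, F.Finite → ∃ U ∈ 𝓤, F ⊆ U

/-- `𝓤` is a `γ`-cover of `X`: it covers `X`, it is infinite, and every point belongs to all but
finitely many members. -/
def IsGammaCover {X : Type} (𝓤 : Set (Set X)) : Prop :=
  ⋃₀ 𝓤 = Set.univ ∧ 𝓤.Infinite ∧ ∀ x, {U ∈ 𝓤 | x ∉ U}.Finite

/-- the countable `ω`-covers of `X` by Borel sets -/
def BorelOmega (X : Type) [TopologicalSpace X] : Set (Set (Set X)) :=
  {𝓤 | 𝓤.Countable ∧ (∀ U ∈ 𝓤, @MeasurableSet X (borel X) U) ∧ IsOmegaCover 𝓤}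

/-- the countable `γ`-covers of `X` by Borel sets -/
def BorelGamma (X : Type) [TopologicalSpace X] : Set (Set (Set X)) :=
  {𝓤 | 𝓤.Countable ∧ (∀ U ∈ 𝓤, @MeasurableSet X (borel X) U) ∧ IsGammaCover 𝓤}

/-- the selection principle `S₁(𝒜, ℬ)` -/
def S1 {X : Type} (𝒜 ℬ : Set (Set (Set X))) : Prop :=
  ∀ 𝓤 : ℕ → Set (Set X), (∀ n, 𝓤 n ∈ 𝒜) →
    ∃ U : ℕ → Set X, (∀ n, U n ∈ 𝓤 n) ∧ range U ∈ ℬ

/-- Q1: the continuum hypothesis implies that there is a subgroup `G` of `ℤ^ℕ` with `|G| = 𝔠` that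
satisfies `S₁(𝓑_Ω, 𝓑_Γ)`. -/
theorem result (CH : (𝔠 : Cardinal.{0}) = ℵ₁) :
    ∃ G : AddSubgroup (ℕ → ℤ), #G = 𝔠 ∧ S1 (BorelOmega G) (BorelGamma G) := by
  borelize (ℕ → ℤ)
  have hE : Uncountable (ℕ → ℤ) := by
    rw [← not_countable_iff, ← mk_le_aleph0_iff]
    simp only [mk_pi, prod_const, lift_id, mk_nat, mk_int, aleph0_power_aleph0]
    exact not_le.2 aleph0_lt_continuum
  obtain ⟨G, hG, hsel⟩ := Pool.Agent.T2H96.Gamma.main (E := ℕ → ℤ) CH hE
  refine ⟨G, hG, fun 𝓤 h𝓤 => ?_⟩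
  -- enumerate the covers and lift their members to Borel subsets of `ℤ^ℕ`
  have henum : ∀ n, ∃ u : ℕ → Set G, 𝓤 n = range u := by
    intro n
    obtain ⟨hc, -, -, -, hω⟩ := h𝓤 n
    obtain ⟨U, hU, -⟩ := hω ∅ finite_empty
    exact hc.exists_eq_range ⟨U, hU⟩
  choose u hu using henum
  have huk : ∀ n k, u n k ∈ 𝓤 n := fun n k => hu n ▸ mem_range_self k
  have hlift : ∀ n k, ∃ S : Set (ℕ → ℤ), MeasurableSet S ∧ Subtype.val ⁻¹' S = u n k := by
    intro n k
    have h1 : @MeasurableSet G (borel G) (u n k) := (h𝓤 n).2.1 _ (huk n k)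
    have h2 : borel G = (borel (ℕ → ℤ)).comap (Subtype.val : G → (ℕ → ℤ)) := borel_comap
    rw [h2, MeasurableSpace.measurableSet_comap] at h1
    exact h1
  choose S hSm hS using hlift
  rcases hsel S hSm with ⟨n, F, hFG, hF⟩ | ⟨c, hc⟩
  · exfalso
    obtain ⟨-, -, -, -, hω⟩ := h𝓤 n
    obtain ⟨U, hU, hFU⟩ := hω (Subtype.val ⁻¹' (F : Set (ℕ → ℤ)))
      (F.finite_toSet.preimage Subtype.val_injective.injOn)
    rw [hu n] at hU
    obtain ⟨k, rfl⟩ := hU
    refine hF k fun x hx => ?_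
    have h1 : (⟨x, hFG hx⟩ : G) ∈ u n k := hFU hx
    rw [← hS n k] at h1
    exact h1
  · have hev : ∀ x : G, ∀ᶠ n in atTop, x ∈ u n (c n) := by
      intro x
      filter_upwards [hc x x.2] with n hn
      rw [← hS n (c n)]
      exact hn
    have hfin : ∀ x : G, {n | x ∉ u n (c n)}.Finite := by
      intro x
      have := hev x
      rw [← Nat.cofinite_eq_atTop, eventually_cofinite] at this
      exact this
    refine ⟨fun n => u n (c n), fun n => huk n _, countable_range _, ?_, ?_, ?_, ?_⟩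
    · rintro _ ⟨n, rfl⟩
      exact (h𝓤 n).2.1 _ (huk n _)
    · refine eq_univ_of_forall fun x => ?_
      obtain ⟨n, hn⟩ := (hev x).exists
      exact ⟨_, mem_range_self n, hn⟩
    · intro hfinr
      -- some member is chosen infinitely often, hence is everything
      have := hfinr.to_subtype
      obtain ⟨⟨U, hU⟩, hinf⟩ := Finite.exists_infinite_fiber
        (fun n => (⟨u n (c n), mem_range_self n⟩ : range fun n => u n (c n)))
      have hinf' : {n | u n (c n) = U}.Infinite := by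
        have h1 := Set.infinite_coe_iff.1 hinf
        refine h1.mono fun n hn => ?_
        exact congrArg Subtype.val hn
      obtain ⟨m, hm⟩ := hU
      have hUu : U = Set.univ := by
        refine eq_univ_of_forall fun x => ?_
        obtain ⟨n, hn, hnx⟩ := (hinf'.sdiff (hfin x)).nonempty
        rw [← show u n (c n) = U from hn]
        exact not_not.1 hnx
      apply (h𝓤 m).2.2.2.1
      rw [← hUu, ← hm]
      exact huk m _
    · intro x
      refine ((hfin x).image fun n => u n (c n)).subset ?_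
      rintro _ ⟨⟨n, rfl⟩, hn⟩
      exact ⟨n, hn, rfl⟩

end Pool.Agent.Results.MP_cc0654_lc.BorelGammaGroup
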